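import Pool.Agent.Helper94.YF.St

/-! # YF module RAT: algebraic integers fixed by all automorphisms of `ℂ` -/

set_option autoImplicit false

namespace Pool.Agent.Helper94.YF

open MvPolynomial

private theorem rat_int (q : ℚ) (h : IsIntegral ℤ (q : ℂ)) : ∃ m : ℤ, (m : ℚ) = q := by
  have h1 : IsIntegral ℤ q := by
    have h2 : IsIntegral ℤ (algebraMap ℚ ℂ q) := by simpa using h
    exact (isIntegral_algebraMap_iff (algebraMap ℚ ℂ).injective).1 h2
  obtain ⟨m, hm⟩ := IsIntegrallyClosed.isIntegral_iff.1 h1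
  exact ⟨m, by simpa using hm⟩

private theorem tdeg_pow {σ : Type} (p : MvPolynomial σ ℚ) (hp : p ≠ 0) (n : ℕ) :
    (p ^ n).totalDegree = n * p.totalDegree := by
  induction n with
  | zero => simp
  | succ n ih =>
    rw [pow_succ, totalDegree_mul_of_isDomain (pow_ne_zero _ hp) hp, ih]
    ring

private theorem const_of_integral {σ : Type} (p : MvPolynomial σ ℚ) (h : IsIntegral ℤ p) :
    ∃ c : ℚ, p = C c := by
  by_cases hp : p = 0
  · exact ⟨0, by rw [hp, C_0]⟩
  refine ⟨p.coeff 0, totalDegree_eq_zero_iff_eq_C.1 ?_⟩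
  obtain ⟨f, hf, hroot⟩ := h
  rw [Polynomial.eval₂_eq_sum_range, Finset.sum_range_succ, hf.coeff_natDegree, map_one,
    one_mul] at hroot
  by_contra hd
  have hd' : 1 ≤ p.totalDegree := Nat.one_le_iff_ne_zero.2 hd
  have hn : f.natDegree ≠ 0 := by
    intro hn
    rw [hn, Finset.sum_range_zero, zero_add, pow_zero] at hroot
    exact one_ne_zero hroot
  have h1 : p ^ f.natDegree = -∑ i ∈ Finset.range f.natDegree,
      (algebraMap ℤ (MvPolynomial σ ℚ)) (f.coeff i) * p ^ i := by
    rw [eq_neg_iff_add_eq_zero, add_comm]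
    exact hroot
  have h2 : (p ^ f.natDegree).totalDegree ≤ (f.natDegree - 1) * p.totalDegree := by
    rw [h1, totalDegree_neg]
    refine totalDegree_finsetSum_le fun i hi => ?_
    have hi' := Finset.mem_range.1 hi
    have h3 : (algebraMap ℤ (MvPolynomial σ ℚ)) (f.coeff i) = C ((f.coeff i : ℤ) : ℚ) := by
      simp
    rw [h3]
    refine (totalDegree_mul _ _).trans ?_
    rw [totalDegree_C, zero_add, tdeg_pow p hp]
    exact Nat.mul_le_mul_right _ (by omega)
  rw [tdeg_pow p hp] at h2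
  have h3 := Nat.le_of_mul_le_mul_right h2 hd'
  omega

open scoped IntermediateField.algebraAdjoinAdjoin in
theorem hRAT' : StRAT := by
  refine ⟨?_, rat_int⟩
  intro z hz hfix
  obtain ⟨s, hs⟩ := exists_isTranscendenceBasis ℚ ℂ
  have halg : Algebra.IsAlgebraic (IntermediateField.adjoin ℚ (Set.range ((↑) : s → ℂ))) ℂ :=
    hs.isAlgebraic_field
  have hclos : IsAlgClosure (IntermediateField.adjoin ℚ (Set.range ((↑) : s → ℂ))) ℂ :=
    ⟨inferInstance, halg⟩
  have hnorm : Normal (IntermediateField.adjoin ℚ (Set.range ((↑) : s → ℂ))) ℂ :=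
    IsAlgClosure.normal _ _
  have hgal : IsGalois (IntermediateField.adjoin ℚ (Set.range ((↑) : s → ℂ))) ℂ := {}
  have h1 : z ∈ Set.range
      (algebraMap (IntermediateField.adjoin ℚ (Set.range ((↑) : s → ℂ))) ℂ) :=
    (InfiniteGalois.mem_range_algebraMap_iff_fixed z).2 fun f => hfix f.toRingEquiv
  obtain ⟨y, hy⟩ := h1
  have hyint : IsIntegral ℤ y := by
    rw [← hy] at hz
    exact (isIntegral_algebraMap_iff
      (algebraMap (IntermediateField.adjoin ℚ (Set.range ((↑) : s → ℂ))) ℂ).injective).1 hz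
  have hic : IsIntegrallyClosed (Algebra.adjoin ℚ (Set.range ((↑) : s → ℂ))) :=
    IsIntegrallyClosed.of_equiv hs.1.aevalEquiv.toRingEquiv
  have hyA : IsIntegral (Algebra.adjoin ℚ (Set.range ((↑) : s → ℂ))) y := hyint.tower_top
  obtain ⟨x, hx⟩ := IsIntegrallyClosed.isIntegral_iff.1 hyA
  have hxz : (x : ℂ) = z := by
    rw [← hy, ← hx]
    rfl
  obtain ⟨p, hp⟩ := hs.1.aevalEquiv.surjective x
  have hpint : IsIntegral ℤ p := by
    have h2 : IsIntegral ℤ ((x : ℂ)) := by rw [hxz]; exact hz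
    have h3 : IsIntegral ℤ x := by
      have h4 : IsIntegral ℤ (algebraMap (Algebra.adjoin ℚ (Set.range ((↑) : s → ℂ))) ℂ x) := h2
      exact (isIntegral_algebraMap_iff Subtype.val_injective).1 h4
    rw [← hp] at h3
    exact (isIntegral_algEquiv (hs.1.aevalEquiv.restrictScalars ℤ)).1 h3
  obtain ⟨c, hc⟩ := const_of_integral p hpint
  have hcz : (c : ℂ) = z := by
    rw [← hxz, ← hp, hc]
    simp
  rw [← hcz] at hz
  obtain ⟨m, hm⟩ := rat_int c hz
  refine ⟨m, ?_⟩
  rw [← hcz, ← hm]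
  norm_cast

end Pool.Agent.Helper94.YF
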