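import Pool.Agent.Helper94.YF.St

/-! # YF module IDE: the idempotent -/

set_option autoImplicit false

namespace Pool.Agent.Helper94.YF

theorem hIDE : StIDE := by
  intro L hL
  obtain ⟨a, L', hL'odd, hLe⟩ := Nat.exists_eq_two_pow_mul_odd (Nat.pos_iff_ne_zero.1 hL)
  have hcop : Nat.Coprime (2 ^ a) L' := Nat.Coprime.pow_left a (Nat.coprime_two_left.2 hL'odd)
  obtain ⟨k, hk1, hk2⟩ := Nat.chineseRemainder hcop 1 0
  have hk2' : L' ∣ k := (Nat.modEq_zero_iff_dvd).1 hk2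
  have hk1' : ((2 ^ a : ℕ) : ℤ) ∣ (k : ℤ) - 1 := by
    have := (Nat.modEq_iff_dvd.1 hk1.symm)
    simpa using this
  have hk2z : (L' : ℤ) ∣ (k : ℤ) := by exact_mod_cast hk2'
  have hLz : (L : ℤ) = ((2 ^ a : ℕ) : ℤ) * (L' : ℤ) := by rw [hLe]; push_cast; rfl
  refine ⟨a, (k : ZMod L), ⟨?_, ?_, ⟨a, rfl⟩, L', hLe, hL'odd, ?_⟩, ?_⟩
  · have h : ((( (k : ℤ) * k - k : ℤ)) : ZMod L) = 0 := by
      rw [ZMod.intCast_zmod_eq_zero_iff_dvd, hLz]
      have : (k : ℤ) * k - k = ((k : ℤ) - 1) * k := by ring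
      rw [this]
      exact mul_dvd_mul hk1' hk2z
    push_cast at h
    exact sub_eq_zero.1 h
  · have h : (((2 ^ a : ℕ) : ℤ) * (k : ℤ) : ℤ) = (((2 ^ a * k : ℕ)) : ℤ) := by push_cast; ring
    have h2 : (((2 ^ a * k : ℕ)) : ZMod L) = 0 := by
      rw [ZMod.natCast_eq_zero_iff, hLe]
      exact mul_dvd_mul_left _ hk2'
    rw [← h2]
    push_cast
    ring
  · have h : (((L' : ℤ) * (1 - k) : ℤ) : ZMod L) = 0 := by
      rw [ZMod.intCast_zmod_eq_zero_iff_dvd, hLz, mul_comm]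
      apply mul_dvd_mul_left
      have : (1 : ℤ) - k = -((k : ℤ) - 1) := by ring
      rw [this, dvd_neg]
      exact hk1'
    push_cast at h
    exact h
  · intro h2
    by_contra ha
    have ha0 : a = 0 := by omega
    rw [hLe, ha0, pow_zero, one_mul] at h2
    exact (Nat.not_even_iff_odd.2 hL'odd) (even_iff_two_dvd.2 h2)

end Pool.Agent.Helper94.YF
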