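import Pool.Agent.Helper94.YF.Fin
import Pool.Agent.Helper94.YF.M_IDE
import Pool.Agent.Helper88.YF.M_DUA
import Pool.Agent.Helper36.YF.M_FUS
import Pool.Agent.Helper95.YF.M_INT
import Pool.Agent.Helper2.YF.M_NRM
import Pool.Agent.Helper94.YF.M_RAT
import Pool.Agent.Helper24.YF.M_YVE
import Pool.Agent.Helper22.YF.M_YPR
import Pool.Agent.Helper16.YF.M_BDA
import Pool.Agent.Helper99.YF.M_HS
import Pool.Agent.Helper53.YF.M_DIV
import Pool.Agent.Helper33.YF.M_CA
import Pool.Agent.Helper34.YF.M_CB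
import Pool.Agent.Helper2.YF.M_RUL
import Pool.Agent.Helper67.YF.M_PF
import Pool.Agent.Helper48.YF.M_JH
import Pool.Agent.Helper40.YF.M_ORB
import Pool.Agent.Helper51.YF.M_EV
import Pool.Agent.Helper28.YF.M_PX

/-! # Project YF (MP_2b6189_al): all modules together -/

set_option autoImplicit false

namespace Pool.Agent.Helper94.YF

theorem goal (I : Type) [Fintype I] [DecidableEq I] (Z : CentreRep I) (m : ℕ) (hn : Z.n = 2 * m)
    (hm : Odd m) (hsq : Squarefree m) : Goal Z :=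
  main hIDE Helper88.YF.hDUA Helper36.YF.hFUS Helper95.YF.hINT Helper2.YF.hNRM hRAT'
    Helper24.YF.hYVE Helper22.YF.hYPR Helper16.YF.hBDA Helper99.YF.hHS Helper53.YF.hDIV
    Helper33.YF.hCA Helper34.YF.hCB Helper2.YF.hRUL Helper67.YF.hPF Helper48.YF.hJH
    Helper40.YF.hORB Helper51.YF.hEV Helper28.YF.hPX I Z m hn hm hsq

theorem all (I : Type) [Fintype I] [DecidableEq I] (Z : CentreRep I) (m : ℕ) (hn : Z.n = 2 * m)
    (hm : Odd m) (hsq : Squarefree m) :
    ∃ x, x ≠ Z.o ∧ Z.d x = 1 ∧ Z.th x = 1 ∧ Z.st x = x ∧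
      ∀ k, Z.N x x k = if k = Z.o then 1 else 0 := by
  obtain ⟨x, hx, hd, hth, hst⟩ := goal I Z m hn hm hsq
  exact ⟨x, hx, hd, hth, hst, square_unit Helper88.YF.hDUA Helper36.YF.hFUS Z x hd hst⟩

end Pool.Agent.Helper94.YF
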