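import Pool.Agent.Helper94.YF.St

/-! # Project YF (MP_2b6189_al): assembly -/

set_option autoImplicit false

namespace Pool.Agent.Helper94.YF

theorem good_goal {I : Type} [Fintype I] [DecidableEq I] (hF : StFUS) (hD : StDUA)
    (Z : CentreRep I) (b : ZMod Z.L) (y : I → ℤ) (hy : YP Z b y) (X : BD I) (hXo : X.o = Z.o)
    (hXst : X.st = Z.st) (hXd : X.d = Z.d) (hXe : ∀ i, Z.tw b i = (X.e i : ℂ))
    (hXB : ∀ i j, (X.B i j : ℂ) = 2 * Z.rho (Lo b) i j) (hX : X.Good) : Goal Z := by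
  obtain ⟨-, -, htw, -, htw1, htwo, -⟩ := hF hD I Z
  have key : ∀ i j, X.B i j ≠ 0 → Z.tw (1 - b) i = Z.tw (1 - b) j := by
    intro i j h
    apply hy.odd
    intro h0
    apply h
    have := hXB i j
    rw [h0, mul_zero] at this
    exact_mod_cast this
  obtain ⟨x, hxo, hxe, hxd, hxst, hx⟩ := hX
  have h1 : Z.tw (1 - b) x = 1 := by
    rcases hx with h | ⟨p, h, h'⟩
    · rw [← key _ _ h, hXo, htwo]
    · rw [← key _ _ h', ← key _ _ h, hXo, htwo]
  refine ⟨x, ?_, ?_, ?_, ?_⟩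
  · rw [← hXo]; exact hxo
  · rw [← hXd]; exact hxd
  · rw [← htw1 x]
    have : (1 : ZMod Z.L) = b + (1 - b) := by ring
    rw [this, htw, h1, hXe, hxe]
    norm_num
  · rw [← hXst]; exact hxst

theorem main (hIDE : StIDE) (hDUA : StDUA) (hFUS : StFUS) (hINT : StINT) (hNRM : StNRM)
    (hRAT : StRAT) (hYVE : StYVE) (hYPR : StYPR) (hBDA : StBDA) (hHS : StHS) (hDIV : StDIV)
    (hCA : StCA) (hCB : StCB) (hRUL : StRUL) (hPF : StPF) (hJH : StJH) (hORB : StORB)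
    (hEV : StEV) (hPX : StPX)
    (I : Type) [Fintype I] [DecidableEq I] (Z : CentreRep I) (m : ℕ) (hn : Z.n = 2 * m)
    (hm : Odd m) (hsq : Squarefree m) : Goal Z := by
  obtain ⟨a, b, hb, ha⟩ := hIDE Z.L Z.L_pos
  have ha1 : 1 ≤ a := ha (Z.cauchy 2 Nat.prime_two (by rw [hn]; exact dvd_mul_right 2 m))
  obtain ⟨y, hy0⟩ := hYVE hFUS hDUA hINT hRAT I Z (2 ^ a) m b hb hn hm hsq
  have hy := hYPR hFUS hDUA I Z b y hb.1 hy0
  rcases Nat.eq_or_lt_of_le ha1 with h | h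
  · subst h
    rw [pow_one] at hb
    obtain ⟨X, h1, h2, h3, h4, h5⟩ := hBDA hFUS hDUA hNRM hRAT I Z m b y hb hn hm hy
    refine good_goal hFUS hDUA Z b y hy X h1 h2 h3 h4 h5 ?_
    rcases (hHS I X).2.2 with h | h
    · exact hCB hHS hDIV I X h
    · exact hCA hHS hDIV I X h
  · rcases hPF hFUS hDUA hRUL I Z a b y h hb hy with h' | h'
    · exact h'
    · exact hPX hFUS hDUA hRAT hJH hORB hEV I Z a b y h hb hy h'

end Pool.Agent.Helper94.YF
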