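import Mathlib

/-! # Project YF (MP_2b6189_al): definitions

The data `CentreRep` of the Drinfeld centre `Z(C)` of an integral fusion category `C` of dimension `n`. -/

set_option autoImplicit false

namespace Pool.Agent.Helper94.YF

open Matrix ComplexConjugate

/-- `SL(2, Z/L)` -/
abbrev SL (L : ℕ) := Matrix.SpecialLinearGroup (Fin 2) (ZMod L)

/-- `U(z) = (1 z; 0 1)` -/
def U {L : ℕ} (z : ZMod L) : SL L := ⟨!![1, z; 0, 1], by simp⟩

/-- `Lo(z) = (1 0; z 1)` -/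
def Lo {L : ℕ} (z : ZMod L) : SL L := ⟨!![1, 0; z, 1], by simp⟩

/-- `S = (0 -1; 1 0)` -/
def Sm {L : ℕ} : SL L := ⟨!![0, -1; 1, 0], by simp⟩

/-- `D(c) = (c 0; 0 c⁻¹)` -/
def Dg {L : ℕ} (c : (ZMod L)ˣ) : SL L := ⟨!![(c : ZMod L), 0; 0, ((c⁻¹ : (ZMod L)ˣ) : ZMod L)], by simp⟩

/-- The data of the Drinfeld centre of an integral fusion category of dimension `n`. -/
structure CentreRep (I : Type) [Fintype I] [DecidableEq I] where
  /-- the unit object -/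
  o : I
  /-- duality -/
  st : I → I
  /-- the dimension of the fusion category -/
  n : ℕ
  n_pos : 0 < n
  /-- dimensions of the simple objects of the centre -/
  d : I → ℕ
  d_pos : ∀ i, 0 < d i
  d_o : d o = 1
  /-- fusion coefficients -/
  N : I → I → I → ℕ
  /-- the level -/
  L : ℕ
  L_pos : 0 < L
  /-- the twists -/
  th : I → ℂ
  th_o : th o = 1
  th_order : ∀ k : ℕ, (∀ i, th i ^ k = 1) → L ∣ k
  /-- the congruence representation -/
  rho : SL L →* Matrix I I ℂ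
  unitary : ∀ g, (rho g)ᴴ * rho g = 1
  rho_T : rho (U 1) = Matrix.diagonal th
  s_o : ∀ i, rho Sm o i = (d i : ℂ) / n
  s_symm : ∀ i j, rho Sm i j = rho Sm j i
  s_dual : ∀ i j, rho Sm (st i) j = conj (rho Sm i j)
  verlinde : ∀ i j l, rho Sm i l * rho Sm j l = rho Sm o l * ∑ k, (N i j k : ℂ) * rho Sm k l
  cauchy : ∀ p : ℕ, p.Prime → p ∣ n → p ∣ L
  borel : ∀ (c : (ZMod L)ˣ) (i : I), rho (Dg c) i o = if i = o then 1 else 0
  galois : ∀ σ : ℂ ≃+* ℂ, ∃ c : (ZMod L)ˣ, ∀ g g' : SL L,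
    g' 0 0 = g 0 0 → g' 0 1 = (c : ZMod L) * g 0 1 → (c : ZMod L) * g' 1 0 = g 1 0 →
    g' 1 1 = g 1 1 → ∀ i j, rho g' i j = σ (rho g i j)
  indicator : ∀ (i : I) (k : ℕ), 0 < k → ∃ (M : ℕ) (lam : Fin M → ℂ),
    (∀ r, lam r ^ k = th i) ∧
    ∀ (l : ℕ) (g : SL L), g 0 0 = ((l / l.gcd k : ℕ) : ZMod L) →
      g 1 0 = ((k / l.gcd k : ℕ) : ZMod L) →
      ∑ r, lam r ^ l = (n : ℂ) ^ (l.gcd k) * rho g i o
  indicatorZ : ∀ (g : SL L) (i j V : I),
    IsIntegral ℤ (∑ k, ∑ l, rho g k i * conj (rho g l j) * (N k (st l) V : ℂ))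
  /-- the Lagrangian algebra -/
  kap : I → ℕ
  kap_o : kap o = 1
  kap_inv : ∀ (g : SL L) (i : I), ∑ j, rho g i j * (kap j : ℂ) = kap i

end Pool.Agent.Helper94.YF
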