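import Pool.Agent.Helper94.YF.Asm

/-! # Project YF (MP_2b6189_al): the object of order two -/

set_option autoImplicit false

namespace Pool.Agent.Helper94.YF

open Matrix ComplexConjugate

theorem square_unit {I : Type} [Fintype I] [DecidableEq I] (hD : StDUA) (hF : StFUS)
    (Z : CentreRep I) (x : I) (hd : Z.d x = 1) (hst : Z.st x = x) :
    ∀ k, Z.N x x k = if k = Z.o then 1 else 0 := by
  obtain ⟨-, -, -, -, -, -, -, hfus, -, -, -⟩ := hF hD I Z
  have hLo : (Lo (0 : ZMod Z.L) : SL Z.L) = 1 := by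
    apply Subtype.ext
    ext i j
    fin_cases i <;> fin_cases j <;> simp [Lo]
  have h1 : Z.N x x Z.o = 1 := by
    have h := hfus 0 x x
    rw [hLo, map_one, hst] at h
    simp only [Matrix.one_apply, if_true] at h
    rw [Finset.sum_eq_single Z.o] at h
    · simp only [if_true, mul_one] at h
      exact_mod_cast h.symm
    · intro l _ hl
      rw [if_neg hl, mul_zero]
    · intro h'
      exact absurd (Finset.mem_univ _) h'
  have hn : (Z.n : ℂ) ≠ 0 := by exact_mod_cast Z.n_pos.ne'
  have h2 : ∑ k, Z.N x x k * Z.d k = 1 := by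
    have h := Z.verlinde x x Z.o
    have hs : ∀ k, Z.rho Sm k Z.o = (Z.d k : ℂ) / Z.n := fun k => by
      rw [Z.s_symm, Z.s_o]
    simp only [hs, hd, Z.d_o] at h
    have h3 : ∑ k, (Z.N x x k : ℂ) * ((Z.d k : ℂ) / Z.n) =
        (∑ k, (Z.N x x k : ℂ) * (Z.d k : ℂ)) / Z.n := by
      rw [Finset.sum_div]
      exact Finset.sum_congr rfl fun k _ => by ring
    rw [h3] at h
    field_simp at h
    have h4 : ((∑ k, Z.N x x k * Z.d k : ℕ) : ℂ) = 1 := by
      push_cast
      rw [← h]
      try norm_num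
    exact_mod_cast h4
  intro k
  split_ifs with hk
  · rw [hk, h1]
  · have h5 := Finset.add_sum_erase Finset.univ (fun k => Z.N x x k * Z.d k) (Finset.mem_univ Z.o)
    rw [h2] at h5
    simp only [h1, Z.d_o, mul_one] at h5
    have h6 : ∑ k ∈ Finset.univ.erase Z.o, Z.N x x k * Z.d k = 0 := by omega
    have h7 := (Finset.sum_eq_zero_iff.1 h6) k (Finset.mem_erase.2 ⟨hk, Finset.mem_univ _⟩)
    rcases Nat.mul_eq_zero.1 h7 with h8 | h8
    · exact h8
    · exact absurd h8 (Z.d_pos k).ne'

end Pool.Agent.Helper94.YF
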