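import Pool.Agent.Helper94.YF.Defs

/-! # Project YF (MP_2b6189_al): statements of the modules

Complete paper proof of the theorem: `/team-store/Y54-proof.md`.  The proofs below are self-contained. -/

set_option autoImplicit false

namespace Pool.Agent.Helper94.YF

open Matrix ComplexConjugate

/-- `tw z i = θ_i ^ z`, so that `rho (U z) = diagonal (tw z)` (module FUS). -/
noncomputable def CentreRep.tw {I : Type} [Fintype I] [DecidableEq I] (Z : CentreRep I)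
    (z : ZMod Z.L) (i : I) : ℂ := Z.th i ^ z.val

/-- `s2 b = U(-b) Lo(b) U(-b)`; for `b * b = b` its matrix is `(1-b, -b; b, 1-b)`. -/
def s2 {L : ℕ} (b : ZMod L) : SL L := U (-b) * Lo b * U (-b)

/-- `b` is the idempotent of `Z/L` which is `1` modulo `P` and `0` modulo the odd number `L / P`,
`P` a power of two. -/
def Idem (L P : ℕ) (b : ZMod L) : Prop :=
  b * b = b ∧ (P : ZMod L) * b = 0 ∧ (∃ a : ℕ, P = 2 ^ a) ∧
    ∃ L' : ℕ, L = P * L' ∧ Odd L' ∧ (L' : ZMod L) * (1 - b) = 0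

/-- **YF MODULE IDE.**  PROOF.  Write `L = 2^a L'` with `L'` odd (`Nat.exists_eq_two_pow_mul_odd`).
By the Chinese remainder theorem (`Nat.chineseRemainder`, `2^a` and `L'` coprime) there is a natural
`k` with `k ≡ 1 mod 2^a`, `k ≡ 0 mod L'`; put `b = (k : ZMod L)`.  `P * b = 0`: `L' ∣ k`, so `L ∣ P k`.
`L' * (1 - b) = 0`: `2^a ∣ k - 1` (as integers), so `L ∣ L' (1 - k)`.  `b * b - b = k (k - 1)` is divisible
by `L'` and by `2^a`, so by `L`.  (`ZMod.intCast_zmod_eq_zero_iff_dvd` / `ZMod.natCast_eq_zero_iff`.)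
If `2 ∣ L` then `a ≥ 1`. -/
def StIDE : Prop := ∀ L : ℕ, 0 < L → ∃ (a : ℕ) (b : ZMod L), Idem L (2 ^ a) b ∧ (2 ∣ L → 1 ≤ a)

/-- **YF MODULE DUA.**  Duality.
PROOF.  Write `s = rho Sm`.  `rho Sm` is unitary on both sides (`unitary` and `Matrix.mul_eq_one_comm`).
`(s * s) i j = ∑ k, s i k * s k j = ∑ k, s i k * s j k = ∑ k, s i k * conj (s (st j) k) = (s * sᴴ) i (st j)`
`= if i = st j then 1 else 0` (from `s_symm` and `s_dual`: `conj (s (st j) k) = s j k`).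
As `s` is symmetric so is `s * s`; hence `i = st j ↔ j = st i`, so `st (st j) = j`.
`s (st o) k = conj (s o k) = s o k` (`s_o` is real) so `(s * sᴴ) (st o) o = (s * sᴴ) o o = 1`, so `st o = o`.
`d (st i) / n = s o (st i) = s (st i) o = conj (s i o) = conj (d i / n) = d i / n`, so `d (st i) = d i`.
`Sm * Sm` has matrix `(-1 0; 0 -1)` and commutes with every `g` (`Subtype.ext`/`Matrix.SpecialLinearGroup.ext`,
2x2 computation, `fin_cases`), so `rho g * (s * s) = (s * s) * rho g`; entry `(i, j)`: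
`rho g i (st j) = rho g (st i) j`; replace `j` by `st j`.  For `g = U 1` and `i = j` this is `th (st i) = th i`.
`kap_inv (Sm * Sm) i`: `∑ j, (if i = st j then 1 else 0) * kap j = kap i`, i.e. `kap (st i) = kap i`. -/
def StDUA : Prop := ∀ (I : Type) [Fintype I] [DecidableEq I] (Z : CentreRep I),
  (∀ i, Z.st (Z.st i) = i) ∧ Z.st Z.o = Z.o ∧ (∀ i, Z.d (Z.st i) = Z.d i) ∧
    (∀ i, Z.th (Z.st i) = Z.th i) ∧ (∀ i, Z.kap (Z.st i) = Z.kap i) ∧
    ∀ (g : SL Z.L) (i j : I), Z.rho g (Z.st i) (Z.st j) = Z.rho g i j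

/-- **YF MODULE FUS.**  Basic facts.
PROOF.
(1) `U (x + y) = U x * U y`, so `U (k : ZMod L) = (U 1)^k` for naturals `k` (induction) and
`rho (U (k : ZMod L)) = diagonal (fun i => th i ^ k)` (`Matrix.diagonal_pow`).  With `k = z.val`
(`ZMod.natCast_zmod_val`, `NeZero L` from `L_pos`): `rho (U z) = diagonal (tw z)`.  With `k = L`:
`th i ^ L = 1` (`ZMod.natCast_self`, `U 0 = 1`).
(2) `rho (U (x + y)) = rho (U x) * rho (U y)` gives `tw (x + y) i = tw x i * tw y i` (diagonal entries);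
`tw 0 i = 1`; `tw 1 i = th i` from `rho (U 1) = diagonal th` and (1) (so this holds also for `L = 1`).
`tw z o = 1` as `th o = 1`.  `rho (U z)` is unitary so `conj (tw z i) * tw z i = 1`.
(3) `Lo z = Sm * U (-z) * Sm⁻¹`, i.e. `Lo z * Sm = Sm * U (-z)` (2x2 computation).  `rho Sm⁻¹ = (rho Sm)ᴴ`.
So with `s = rho Sm`: `rho (Lo z) i j = ∑ k, s i k * tw (-z) k * conj (s j k)`, and `conj (s j k) = s (st j) k`;
by `verlinde i (st j) k`: `s i k * s (st j) k = s o k * ∑ l, N i (st j) l * s l k` and summing,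
`rho (Lo z) i j = ∑ l, N i (st j) l * ∑ k, s l k * tw (-z) k * s o k`, and `s o k = conj (s o k)` is real, so the inner
sum is `rho (Lo z) l o`.
(4) symmetry: `rho (Lo z) j i = ∑ k, s j k * tw (-z) k * conj (s i k)`; replace `k` by `st k` (`Equiv.sum_comp`
for the involution `st`; DUA): `s j (st k) = s (st k) j = conj (s k j) = conj (s j k)`, `conj (s i (st k)) = s i k`,
`tw (-z) (st k) = tw (-z) k`.
(5) `Lo z * Sm = Sm * U (-z)` applied to the basis vector `o`: `∑ j, rho (Lo z) i j * s j o =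
s i o * tw (-z) o = s i o`; multiply by `n` (`s j o = s o j = d j / n`).
(6) first columns: if `g' 0 0 = c * g 0 0`, `g' 1 0 = c * g 1 0` then `g⁻¹ * g' = Dg c * U z` for some `z`
(the matrix `g⁻¹ * g'` has first column `(c, 0)`: `g⁻¹ = (g11 -g01; -g10 g00)`, det `g = 1`; its determinant is `1`, so its
`(1,1)` entry is `c⁻¹`; put `z = c⁻¹ *` its `(0,1)` entry).  Then `rho g' i o = ∑ j, rho g i j * rho (Dg c * U z) j o` and
`rho (Dg c * U z) j o = ∑ k, rho (Dg c) j k * (diagonal (tw z)) k o = rho (Dg c) j o * tw z o =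
if j = o then 1 else 0` by `borel`. -/
def StFUS : Prop := StDUA → ∀ (I : Type) [Fintype I] [DecidableEq I] (Z : CentreRep I),
  (∀ z, Z.rho (U z) = Matrix.diagonal (Z.tw z)) ∧ (∀ i, Z.th i ^ Z.L = 1) ∧
  (∀ x y i, Z.tw (x + y) i = Z.tw x i * Z.tw y i) ∧ (∀ i, Z.tw 0 i = 1) ∧ (∀ i, Z.tw 1 i = Z.th i) ∧
  (∀ z, Z.tw z Z.o = 1) ∧ (∀ z i, conj (Z.tw z i) * Z.tw z i = 1) ∧
  (∀ z i j, Z.rho (Lo z) i j = ∑ l, (Z.N i (Z.st j) l : ℂ) * Z.rho (Lo z) l Z.o) ∧
  (∀ z i j, Z.rho (Lo z) i j = Z.rho (Lo z) j i) ∧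
  (∀ z i, ∑ j, Z.rho (Lo z) i j * (Z.d j : ℂ) = Z.d i) ∧
  (∀ (g g' : SL Z.L) (c : (ZMod Z.L)ˣ), g' 0 0 = (c : ZMod Z.L) * g 0 0 →
    g' 1 0 = (c : ZMod Z.L) * g 1 0 → ∀ i, Z.rho g' i Z.o = Z.rho g i Z.o)

/-- **YF MODULE INT.**  Integrality.
PROOF.  `L_pos` gives `NeZero L`.  Let `k = (g 1 0).val + L > 0` and `l = 1 + t.val * k`.  `l.gcd k = 1`
(`Nat.gcd` of `1 + t k` and `k`), `(k : ZMod L) = g 1 0`, `(l : ZMod L) = 1 + t * g 1 0 = g 0 0`.
`indicator i k` gives `lam` with `lam r ^ k = th i`, and for this `l` and `g`: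
`∑ r, lam r ^ l = n ^ 1 * rho g i o`.  `th i ^ L = 1` (from `rho_T` and `(U 1)^L = 1`), so `lam r ^ (k * L) = 1` and
`lam r` is integral over `ℤ` (`IsIntegral.of_pow` with `isIntegral_one`), the sum of powers too. -/
def StINT : Prop := ∀ (I : Type) [Fintype I] [DecidableEq I] (Z : CentreRep I) (g : SL Z.L) (i : I)
  (t : ZMod Z.L), g 0 0 = 1 + t * g 1 0 → IsIntegral ℤ ((Z.n : ℂ) * Z.rho g i Z.o)

/-- **YF MODULE NRM.**  The squared norm bound.
PROOF.  Write `s = rho Sm`, `ν t V = s V t / s o t` (`s o t = d t / n ≠ 0`).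
(1) `ν t V` is integral over `ℤ`: by `verlinde V j t`, `s V t * s j t = s o t * ∑ k, N V j k * s k t`, so the vector
`w = (s j t)_j` satisfies `∑ k, N V j k * w k = ν t V * w j`, and `w o ≠ 0`; `ν t V` is an eigenvalue of the
matrix `(N V j k)` with natural entries, so a root of its characteristic polynomial, which is monic with integer
coefficients (or: `Module.End`/`isIntegral_of_smul_mem_submodule`: the ℤ-span of the `w j` is a finitely generated
subgroup of `ℂ`, nonzero, stable under multiplication by `ν t V`).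
(2) Let `g' = Sm⁻¹ * g` and `W V = ∑ k, ∑ l, rho g' k i * conj (rho g' l i) * N k (st l) V`, integral by `indicatorZ g' i i V`.
By `verlinde k (st l) t` divided by `(s o t)^2`: `∑ V, N k (st l) V * ν t V = ν t k * ν t (st l)`, and
`ν t (st l) = conj (ν t l)` (`s_dual`, `s o t` real).  So `∑ V, W V * ν t V = |∑ k, rho g' k i * ν t k|^2 =
|∑ k, s k t * rho g' k i|^2 / (s o t)^2`, and `∑ k, s k t * rho g' k i = ∑ k, s t k * rho g' k i = rho (Sm * g') t i = rho g t i`.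
With `s o t = d t / n` this is the claimed number, integral as a sum of products of integral numbers. -/
def StNRM : Prop := ∀ (I : Type) [Fintype I] [DecidableEq I] (Z : CentreRep I) (g : SL Z.L) (t i : I),
  IsIntegral ℤ ((Z.n : ℂ) ^ 2 * (Z.rho g t i * conj (Z.rho g t i)) / (Z.d t : ℂ) ^ 2)

/-- **YF MODULE RAT.**  An algebraic number fixed by all automorphisms of `ℂ` is rational; a rational algebraic integer is
an integer.
PROOF.  (b) `IsIntegrallyClosed ℤ` / `IsIntegral.exists_int_eq_rat` style: `IsIntegral ℤ ((q : ℚ) : ℂ)` implies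
`IsIntegral ℤ q` (`isIntegral_algebraMap_iff` with the injective map `ℚ → ℂ`), then `IsIntegrallyClosed.isIntegral_iff`.
(a) `z` is algebraic over `ℚ`.  If `z` is not rational, its minimal polynomial over `ℚ` has degree `≥ 2`, is separable
and splits in `ℂ`, so it has a root `w ≠ z`.  There is a field automorphism `σ` of `ℂ` with `σ z = w`: the field
`K = ℚ(z)` has two embeddings in `ℂ`, `z ↦ z` and `z ↦ w`; `ℂ` with either `K`-algebra structure is an algebraically closed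
field of the same cardinality over the countable field `K`, so it has a transcendence basis of cardinality continuum,
and `IsAlgClosed.equivOfTranscendenceBasis` / `IsAlgClosure.equivOfEquiv` (see `exists_aut` in the file Helper62/FH/Aut)
gives `σ`; alternatively choose a transcendence basis `B` of `ℂ` over `ℚ`, then `ℂ` is an algebraic closure of
`F = ℚ(B)`, the minimal polynomial of `z` over `F` is that over `ℚ` (`ℚ` is algebraically closed in `ℚ(B)`); or: `z` is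
fixed by all automorphisms of `ℂ` over `F`, `ℂ/F` is Galois (characteristic zero, algebraic, normal), so `z ∈ F` by
`IsGalois`/`InfiniteGalois`, and elements of `F = ℚ(B)` which are algebraic over `ℚ` are rational
(`IsPurelyTranscendental`/`AlgebraicIndependent` facts). -/
def StRAT : Prop :=
  (∀ z : ℂ, IsIntegral ℤ z → (∀ σ : ℂ ≃+* ℂ, σ z = z) → ∃ m : ℤ, (m : ℂ) = z) ∧
  (∀ q : ℚ, IsIntegral ℤ (q : ℂ) → ∃ m : ℤ, (m : ℚ) = q)

/-- **YF MODULE YVE.**  The vector `2 u` is integral.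
PROOF.  `L_pos` gives `NeZero L`.  Let `u i = rho (s2 b) i o`.  The matrix of `s2 b` is `(1-b, -b; b, 1-b)` (`b * b = b`).
(1) `n * u i` is an integer: it is integral (INT with `t = -1`: `1 - b = 1 + (-1) * b`), and fixed by every `σ`: take `c` from
`galois σ`; let `g' = s2 b * Dg y` where `y` is the unit `(1 - b) + c⁻¹ * b` of `ZMod L` with inverse `(1 - b) + c * b`
(uses `b * b = b`); its matrix is `(1-b, -c b; c⁻¹ b, 1-b)`, so `galois` applies to `g = s2 b`, `g'`: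
`rho g' i o = σ (u i)`; and `rho g' i o = u i` by FUS (6) (or `borel`).  By RAT `n * u i = M i` for an integer `M i`.
(2) `ℓ ∣ M i` for each odd prime `ℓ ∣ n`.  `ℓ ∣ L` by `cauchy`, `ℓ` is odd so `ℓ ∣ L'`.  Let `k = b.val + L > 0`, so
`(k : ZMod L) = b`; `P * b = 0` in `ZMod L`, so `L = P L' ∣ P k` and `L' ∣ k`, `ℓ ∣ k`.  `indicator i k` gives `lam`.
For `l = 1`, `g = Lo b` (column `(1, b) = (1, k)`; `Nat.gcd 1 k = 1`): `z := ∑ r, lam r = n * rho (Lo b) i o`.  Since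
`s2 b = U (-b) * Lo b * U (-b)` and `tw _ o = 1`: `u i = tw (-b) i * rho (Lo b) i o`; so `z = tw b i * M i`.
For `l = ℓ`, `gcd ℓ k = ℓ`, `g' = Lo ((k/ℓ : ℕ))`: `∑ r, lam r ^ ℓ = n ^ ℓ * rho g' i o = ℓ * (n/ℓ * n^(ℓ-2) * (n * rho g' i o))`,
and `n * rho g' i o` is integral (INT with `t = 0`).  In the commutative ring `A = integralClosure ℤ ℂ` we have
`(∑ r, lam r)^ℓ - ∑ r, lam r ^ ℓ ∈ ℓ A` (`A / ℓ A` has characteristic `ℓ`: `sum_pow_char`; or the multinomial theorem;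
`lam r` is integral since `lam r ^ (k L) = 1`).  So `z ^ ℓ = ℓ * α` with `α` integral; `M i ^ ℓ = conj (tw b i)^ℓ * z^ℓ = ℓ * β`, `β` integral;
`β = M i ^ ℓ / ℓ` is rational, so an integer (RAT), `ℓ ∣ M i ^ ℓ`, `ℓ ∣ M i`.
(3) `m` is square-free and every prime divisor of `m` is odd and divides `n`, so `m ∣ M i` (`Nat.Squarefree`:
`Squarefree.dvd_of_squarefree_of_mul_dvd_mul_right`, or `UniqueFactorizationMonoid.dvd_of_squarefree...`; e.g. by
`Finset.prod_primes_dvd` with `m = ∏ p ∈ m.primeFactors, p`).  `M i = m * y i` and `2 m * u i = n * u i = m * y i`, so `2 u i = y i`. -/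
def StYVE : Prop := StFUS → StDUA → StINT → StRAT → ∀ (I : Type) [Fintype I] [DecidableEq I]
  (Z : CentreRep I) (P m : ℕ) (b : ZMod Z.L), Idem Z.L P b → Z.n = 2 * m → Odd m → Squarefree m →
  ∃ y : I → ℤ, ∀ i, (y i : ℂ) = 2 * Z.rho (s2 b) i Z.o

/-- The properties of the vector `y = 2 u` (module YPR). -/
structure YP {I : Type} [Fintype I] [DecidableEq I] (Z : CentreRep I) (b : ZMod Z.L) (y : I → ℤ) :
    Prop where
  yu : ∀ i, (y i : ℂ) = 2 * Z.rho (s2 b) i Z.o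
  al : ∀ i, 2 * Z.rho (Lo b) i Z.o = Z.tw b i * y i
  sq : ∑ i, y i ^ 2 = 4
  dim : ∑ i, Z.tw b i * (y i : ℂ) * (Z.d i : ℂ) = 2
  kapth : ∀ i, Z.kap i ≠ 0 → Z.th i = 1 ∧ Z.tw b i = 1
  kap : ∑ i, y i * (Z.kap i : ℤ) = 2
  odd : ∀ i j, Z.rho (Lo b) i j ≠ 0 → Z.tw (1 - b) i = Z.tw (1 - b) j
  dual : ∀ i, y (Z.st i) = y i

/-- **YF MODULE YPR.**
PROOF.  `yu` is the hypothesis.  `s2 b = U (-b) * Lo b * U (-b)`, `rho (U z) = diagonal (tw z)`, `tw z o = 1`: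
`rho (s2 b) i o = tw (-b) i * rho (Lo b) i o`; multiply by `tw b i` (`tw b i * tw (-b) i = tw 0 i = 1`): `al`.
`sq`: the matrix `rho (s2 b)` is unitary, so its column `o` has norm `1`: `∑ i, conj (u i) * u i = 1`, `u i = y i / 2` real.
`dim`: FUS (5) for `z = b`, row `o`: `∑ j, rho (Lo b) o j * d j = d o = 1`; `rho (Lo b) o j = rho (Lo b) j o` (FUS (4)); use `al`.
`kapth`: `kap_inv (U z) i`: `tw z i * kap i = kap i`, for `z = 1` (`tw 1 = th`) and `z = b`.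
`kap`: `kap_inv (Lo b) o`: `∑ j, rho (Lo b) o j * kap j = kap o = 1`; symmetric; `al`: `∑ j, tw b j * y j * kap j = 2`, and
`tw b j * kap j = kap j`.
`odd`: `U (1-b) * Lo b = Lo b * U (1-b)` (2x2 computation with `b * b = b`), so `tw (1-b) i * rho (Lo b) i j = rho (Lo b) i j * tw (1-b) j`.
`dual`: DUA (`rho g (st i) (st o) = rho g i o`, `st o = o`). -/
def StYPR : Prop := StFUS → StDUA → ∀ (I : Type) [Fintype I] [DecidableEq I]
  (Z : CentreRep I) (b : ZMod Z.L) (y : I → ℤ), b * b = b →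
  (∀ i, (y i : ℂ) = 2 * Z.rho (s2 b) i Z.o) → YP Z b y

/-- Combinatorial data in the case `P = 2` (`+` is the set of `k` with `e k = 1`). -/
structure BD (I : Type) [Fintype I] [DecidableEq I] where
  o : I
  st : I → I
  d : I → ℕ
  kap : I → ℕ
  e : I → ℤ
  B : I → I → ℤ
  st_st : ∀ i, st (st i) = i
  st_o : st o = o
  e_pm : ∀ i, e i = 1 ∨ e i = -1
  e_o : e o = 1
  e_st : ∀ i, e (st i) = e i
  d_pos : ∀ i, 0 < d i
  d_o : d o = 1
  kap_o : kap o = 1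
  kap_st : ∀ i, kap (st i) = kap i
  kap_e : ∀ i, kap i ≠ 0 → e i = 1
  symm : ∀ i j, B i j = B j i
  B_st : ∀ i j, B (st i) (st j) = B i j
  sq : ∀ i j, ∑ k, B i k * B k j = if i = j then 4 else 0
  bra : ∀ i j, ∑ k, e k * (B i k * B k j) = 2 * (e i * e j * B i j)
  odd : ∀ i j, B i j = 1 ∨ B i j = -1 → Odd (d j)
  divp : ∀ j, e j = 1 → (d j : ℤ) ∣ ∑ k, if e k = 1 then B j k * (d k : ℤ) else 0
  divm : ∀ j, e j = -1 → ∑ k, (if e k = 1 then B j k * (d k : ℤ) else 0) = d j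
  kapB : ∑ k, B o k * (kap k : ℤ) = 2
  ne : ∃ k, B o k ≠ if k = o then 2 else 0

/-- the conclusion of the combinatorial part -/
def BD.Good {I : Type} [Fintype I] [DecidableEq I] (X : BD I) : Prop :=
  ∃ x, x ≠ X.o ∧ X.e x = 1 ∧ X.d x = 1 ∧ X.st x = x ∧
    (X.B X.o x ≠ 0 ∨ ∃ p, X.B X.o p ≠ 0 ∧ X.B p x ≠ 0)

/-- the conclusion of the theorem -/
def Goal {I : Type} [Fintype I] [DecidableEq I] (Z : CentreRep I) : Prop :=
  ∃ x, x ≠ Z.o ∧ Z.d x = 1 ∧ Z.th x = 1 ∧ Z.st x = x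

/-- **YF MODULE BDA.**  From the centre to the combinatorial data, case `P = 2`.
PROOF.  Let `α = rho (Lo b)`, `τ = rho (U b) = diagonal (tw b)`.  Here `2 * b = 0` (`Idem` with `P = 2`) and `b * b = b`.
`tw b i * tw b i = tw (b + b) i = tw 0 i = 1`, so `tw b i = e i` with `e i = 1 ∨ e i = -1` (choose `e`; `e o = 1` as `tw b o = 1`;
`e (st i) = e i` as `th (st i) = th i`).  `2 α i j = ∑ l, N i (st j) l * (2 * α l o) = ∑ l, N i (st j) l * (e l * y l)` (FUS (3), `YP.al`)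
is an integer `B i j`.
`symm`: FUS (4).  `B_st`: DUA.  `sq`: `Lo b * Lo b = Lo (b + b) = 1`, so `α * α = 1`, `B * B = 4`.
`bra`: `Lo b * U b * Lo b = U b * Lo b * U b` (2x2 computation with `b * b = b`, `b + b = 0`: both are `(1+b, b; b, 1+b)`), so
`α τ α = τ α τ`; entry `(i, j)`: `∑ k, α i k * e k * α k j = e i * α i j * e j`; multiply by `4`.
`odd`: if `B i j = 1` or `-1`: NRM for `g = Lo b`, `t = j`, `i = i`: `n^2 |α j i|^2 / d j^2 = (m * B j i / d j)^2` (`n = 2 m`, `B` real) is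
integral, so `m B j i / d j` is integral (`IsIntegral.of_pow`), rational, so an integer: `d j ∣ m * B j i = ± m`, `m` odd.
`divp`, `divm`: let `H j = ∑ k, e j * α j k * e k * d k`.  `d k = n * rho Sm k o`, so `H j = n * rho (U b * Lo b * U b * Sm) j o`.
By NRM `(H j / d j)^2` (`H j` is real) is integral, `H j / d j` is rational and integral, an integer `h j`: `H j = d j * h j`.
FUS (5): `∑ k, α j k * d k = d j`.  Since `[e k = 1] = (1 + e k)/2`:
`∑ k, [e k = 1] B j k d k = ∑ k, α j k d k + ∑ k, e k α j k d k = d j + e j * d j * h j`.  For `e j = 1` this is divisible by `d j`.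
For `e j = -1`: `τ α τ ζ = α τ α ζ = α τ ζ` with `ζ = (d k)` (by `bra` and `α ζ = ζ`): row `j`: `H j = ∑ k, α j k e k d k = e j * H j`, so
`H j = 0` and the sum is `d j`.
`kap_e`: `YP.kapth`.  `kapB`: `B o k = B k o = tw b k * y k`, and `tw b k * kap k = kap k` (`kapth`); `YP.kap`.
`ne`: otherwise `α l o = if l = o then 1 else 0` (`B` symmetric), so by FUS (3) `α i j = N i (st j) o`; FUS (3) for `z = 0` (`Lo 0 = 1`,
`rho 1 = 1`) gives `N i (st j) o = if i = j then 1 else 0`; so `rho (Lo b) = 1`, and `Lo b * Sm = Sm * U (-b)` gives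
`rho (U (-b)) = 1`, `th i ^ (-b).val = 1` for all `i`, `L ∣ (-b).val < L`, `b = 0`; then `L' = L' * (1 - b) = 0` in `ZMod L`,
`L = 2 L' ∣ L'`, `L' > 0`: contradiction. -/
def StBDA : Prop := StFUS → StDUA → StNRM → StRAT → ∀ (I : Type) [Fintype I] [DecidableEq I]
  (Z : CentreRep I) (m : ℕ) (b : ZMod Z.L) (y : I → ℤ), Idem Z.L 2 b → Z.n = 2 * m → Odd m →
  YP Z b y → ∃ X : BD I, X.o = Z.o ∧ X.st = Z.st ∧ X.d = Z.d ∧
    (∀ i, Z.tw b i = (X.e i : ℂ)) ∧ ∀ i j, (X.B i j : ℂ) = 2 * Z.rho (Lo b) i j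

/-- **YF MODULE HS.**  Half sums.
PROOF.  `[e k = 1] = (1 + e k)/2` and `[e k = -1] = (1 - e k)/2`: add and subtract `sq` and `bra` (and divide by `2`).
(iii) let `x = B o o`.  (i), (ii) with `i = j = o`: `∑_{e k = 1} (B o k)^2 = 2 + x`, `∑_{e k = -1} (B o k)^2 = 2 - x`; both are `≥ 0` and
the first contains the term `x^2`: `x^2 ≤ 2 + x`, `-2 ≤ x ≤ 2`, so `x ∈ {-1, 0, 1, 2}`.
`x = 2`: `x^2 = 4 = 2 + x`, so `B o k = 0` for all `k ≠ o` with `e k = 1`, and for `e k = -1` (sum `0`): contradiction to `ne`.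
`x = -1`: `x^2 = 1 = 2 + x`, so `B o k = 0` for `k ≠ o`, `e k = 1`; `kapB` and `kap_e`: `2 = ∑ k, B o k * kap k = B o o * kap o = -1`. -/
def StHS : Prop := ∀ (I : Type) [Fintype I] [DecidableEq I] (X : BD I),
  (∀ i j, ∑ k, (if X.e k = 1 then X.B i k * X.B k j else 0) =
    (if i = j then 2 else 0) + X.e i * X.e j * X.B i j) ∧
  (∀ i j, ∑ k, (if X.e k = -1 then X.B i k * X.B k j else 0) =
    (if i = j then 2 else 0) - X.e i * X.e j * X.B i j) ∧
  (X.B X.o X.o = 0 ∨ X.B X.o X.o = 1)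

/-- **YF MODULE DIV.**  Two divisibility lemmas.
PROOF.  (1) If `1 + e Q = 0` then `Q = 1`.  Otherwise `1 + e Q` is even and divisible by the odd `P`, so by `2 P`, hence
`2 P ≤ |1 + e Q| ≤ Q + 1`; in the same way `P = 1` or `2 Q ≤ P + 1`; adding, `P + Q ≤ 2`.
(2) The statement is symmetric under `(P, Q, w, e) ↦ (Q, P, -w, e)` (as `Q - e P = -e (P - e Q)`), so let `w = Z`, `Z ≥ 3`.
`2 P ∣ 1 + Z`, `2 Q ∣ Z - 1` (`≠ 0`), so `2 P ≤ Z + 1`, `2 Q ≤ Z - 1`, `P + Q ≤ Z`, `|P - e Q| ≤ P + Q ≤ Z`.  If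
`P - e Q = 0` then `P = Q` divides `(1 + Z) + (1 - Z) = 2`, `P = 1`.  Otherwise `Z ≤ |P - e Q|`, so equality everywhere:
`2 P = Z + 1`, `2 Q = Z - 1`, `P = Q + 1`, impossible for odd `P`, `Q`. -/
def StDIV : Prop :=
  (∀ P Q e f : ℤ, 0 < P → 0 < Q → Odd P → Odd Q → (e = 1 ∨ e = -1) → (f = 1 ∨ f = -1) →
    P ∣ 1 + e * Q → Q ∣ 1 + f * P → P = 1 ∨ Q = 1) ∧
  ∀ P Q Z w e : ℤ, 0 < P → 0 < Q → 0 < Z → Odd P → Odd Q → Odd Z → (w = Z ∨ w = -Z) →
    (e = 1 ∨ e = -1) → P ∣ 1 + w → Q ∣ 1 - w → Z ∣ P - e * Q → P = 1 ∨ Q = 1 ∨ Z = 1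

/-- **YF MODULE CA.**  The combinatorial case `B o o = 1`.
PROOF.  Write `+` for `e k = 1`, `-` for `e k = -1`; `(i,j)+`, `(i,j)-` for the two identities of HS.
`(o,o)+`: `∑_+ (B o k)^2 = 3`, `B o o = 1`: so there are exactly two more indices `p ≠ q` in `+` with `B o p = e1 = ±1`,
`B o q = e2 = ±1`, and `B o k = 0` for the other `k` in `+`.  `(o,o)-`: `∑_- (B o k)^2 = 1`: exactly one `r` in `-` with
`B o r = e3 = ±1`.
`(o,r)+`: `e3 + e1 B p r + e2 B q r = -e3`.  `(o,r)-`: `e3 B r r = e3`, `B r r = 1`.  `(r,r)+`: `1 + (B p r)^2 + (B q r)^2 + rest = 3`.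
So `e1 B p r + e2 B q r = -2 e3` and `(B p r)^2 + (B q r)^2 ≤ 2`: `B p r = -e1 e3`, `B q r = -e2 e3`.
`(o,p)+`: `e1 + e1 B p p + e2 B p q = e1`; `(o,q)+`: `e2 + e1 B p q + e2 B q q = e2`.  With `t = B p p`: `B q q = t`,
`B p q = - e1 e2 t`.  `(p,p)+`: `1 + 2 t^2 + rest = 2 + t`, `rest ≥ 0`, so `t = 0` or `t = 1`.
All of `d p`, `d q` are odd (`odd`, `B o p = ±1`).
Duals: `st p` is in `+`, `B o (st p) = B (st o) (st p) = B o p ≠ 0`, `st p ≠ o`; so `st p ∈ {p, q}`.  If `st p = q` then `e1 = e2`,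
`kap p = kap q`, and `kapB` (terms with `e k = -1` vanish by `kap_e`): `1 + 2 e1 kap p = 2`: parity contradiction.  So
`st p = p`, and in the same way `st q = q`.
Case `t = 1`: `rest = 0` in `(p,p)+` (and `(q,q)+`): row `p` over `+` is `o: e1, p: 1, q: -e1 e2`; `divp p`:
`d p ∣ e1 + d p - e1 e2 d q`, so `d p ∣ 1 - e2 d q`; `divp q`: `d q ∣ e2 - e1 e2 d p + d q`, so `d q ∣ 1 - e1 d p`.
DIV (1): `d p = 1` or `d q = 1`; `x = p` or `x = q` (`B o x ≠ 0`).
Case `t = 0`: `(p,p)+`: `rest = 1`: exactly one `z` in `+`, `z ≠ o, p, q`, with `B p z = l = ±1`.  `(o,z)+` (`B o z = 0`):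
`e1 l + e2 B q z = 0`: `B q z = -e1 e2 l`.  `(q,q)+`: `1 + 0 + (B q z)^2 = 2`, nothing else in row `q`.  `(p,z)+`:
`B p z * B z z = B p z` (the terms `o`, `p`, `q` of row `p`: `B o z = 0`, `B p p = 0`, `B p q = 0`), so `B z z = 1`.  `(z,z)+`:
`1 + 1 + 1 + rest = 3`.  `divp p`: `d p ∣ e1 + l d z`; `divp q`: `d q ∣ e2 - e1 e2 l d z`; `divp z`: `d z ∣ l d p - e1 e2 l d q + d z`.
With `w = e1 l d z`: `d p ∣ 1 + w`, `d q ∣ 1 - w`, `d z ∣ d p - e1 e2 d q`; `d z` is odd by `B p z = ±1`.  DIV (2).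
If `d z = 1`: `x = z`: `st z = z` since `B p (st z) = B (st p) (st z) = B p z ≠ 0`, `st z` in `+`, `st z ≠ o, p, q`
(`st` is injective, `o, p, q` are fixed), and `z` is the only such index.  `B o p ≠ 0`, `B p z ≠ 0`. -/
def StCA : Prop := StHS → StDIV → ∀ (I : Type) [Fintype I] [DecidableEq I] (X : BD I),
  X.B X.o X.o = 1 → X.Good

/-- **YF MODULE CB.**  The combinatorial case `B o o = 0`.
PROOF.  Conventions as in CA.  `(o,o)+`: `∑_+ (B o k)^2 = 2`: exactly two `p ≠ q` in `+` (not `o`) with `B o p = e1`, `B o q = e2`;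
`(o,o)-`: exactly two `r ≠ s` in `-` with `B o r = e3`, `B o s = e4` (all `±1`).  `d p, d q, d r, d s` are odd.
`(o,r)-`: `e3 B r r + e4 B r s = e3`; `(o,s)-`: `e3 B r s + e4 B s s = e4`.  With `t = B r r`: `B s s = t`,
`B r s = e3 e4 (1 - t)`.  `(r,r)-`: `t^2 + (1-t)^2 + rest = 2 - t`, so `t = 0` or `t = 1`.
`(o,r)+`: `e1 B p r + e2 B q r = -e3` (`B o o = 0`), `(r,r)+`: `1 + (B p r)^2 + (B q r)^2 + rest = 2 + t ≤ 3`: so both are in
`{-1,0,1}`, and by parity exactly one of `B p r`, `B q r` is nonzero, equal to `-e1 e3`, resp. `-e2 e3`.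
Case `t = 0`: then `rest = 0`; `divm r`: `e3 - e1 e3 d p = d r` or `e3 - e2 e3 d q = d r`: even = odd, contradiction.
Case `t = 1`: `B r s = 0`, `rest = 1`.  Swap `p`, `q` so that `B p r = -e1 e3`, `B q r = 0`; there is exactly one `z` in `+`,
`z ≠ o, p` (and `≠ q` as `B q r = 0`) with `B r z = u = ±1`.  The same for `s`: exactly one of `B p s`, `B q s` is
nonzero (`-e1 e4` resp. `-e2 e4`), and exactly one further entry `±1` over `+` (besides `o`).
`(r,s)+`: `e3 e4 + B p r B p s + u B z s = 0` (`B q r = 0`, `e r e s B r s = 0`).  If `B p s ≠ 0` then `B p r B p s = e3 e4`, so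
`u B z s = -2 e3 e4`, but `(B z s)^2 ≤ 1` by `(s,s)+` (`z ≠ o, p`): contradiction.  So `B p s = 0`, `B q s = -e2 e4`,
`B z s = -e3 e4 u`; row `s` over `+` is `o, q, z`; row `r` over `+` is `o, p, z`.
`(o,p)+`: `e1 B p p + e2 B p q = e1`; `(o,q)+`: `e1 B p q + e2 B q q = e2`: with `v = B p p`: `B q q = v`, `B p q = e1 e2 (1 - v)`.
`(p,p)+`: `1 + v^2 + (1-v)^2 + rest = 2 + v`: `rest = 3 v - 2 v^2 ≥ 0`, so `v = 0` or `v = 1`.
Duals: `st p ∈ {p, q}` as in CA.  If `st p = q` (then `st q = p`): `e1 = e2`; `B (st r) q = B (st r) (st p) = B r p ≠ 0 = B r q`,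
`st r` in `-` and `B o (st r) = B o r ≠ 0`, so `st r = s`, `e3 = e4`; `B s (st z) = B r z = u ≠ 0`, `st z` in `+`, `st z ≠ o`,
`st z ≠ q = st p`, so `st z = z` (row `s` over `+`), `B s z = u`; but `B s z = -e3 e4 u = -u`: contradiction.  So `st p = p`, `st q = q`.
Case `v = 0`: `rest = 0`, `B p q = e1 e2`; `divp p`: `d p ∣ e1 + e1 e2 d q`, so `d p ∣ 1 + e2 d q`; `divp q`: `d q ∣ 1 + e1 d p`.
DIV (1): `x = p` or `x = q`.
Case `v = 1`: `B p q = 0`, `rest = 1`.  `(p,r)+` (`e p e r = -1`): `e1 e3 + B p p B p r + ∑_{k ≠ o, p, q} B p k B k r = e1 e3`, i.e.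
`∑_{k ≠ o,p,q, +} B p k B k r = e1 e3`; row `r` over `+` is `o, p, z`, so `B p z * u = e1 e3`, `B p z = e1 e3 u`.
`(q,s)+`: in the same way `B q z * B z s = e2 e4`, `B q z = -e2 e3 u`.  By `(p,p)+`, `(q,q)+` there is nothing else in the rows `p`, `q`.
`(p,z)+`: `B p o B o z + B p p B p z + B p q B q z + B p z B z z = B p z`, `B o z = 0`: `B z z = 0`.  `(z,z)+`: `1 + 1 + rest = 2`.
`divp p`: `d p ∣ e1 + d p + e1 e3 u d z`; `divp q`: `d q ∣ e2 + d q - e2 e3 u d z`; `divp z`: `d z ∣ e1 e3 u d p - e2 e3 u d q`.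
With `w = e3 u d z`: `d p ∣ 1 + w`, `d q ∣ 1 - w`, `d z ∣ d p - e1 e2 d q`; `d z` odd by `B p z = ±1`.  DIV (2).  If `d z = 1`: `st z = z`
as `B p (st z) = B p z ≠ 0`, `st z` in `+`, `st z ≠ o, p`, and `q` has `B p q = 0`: row `p` over `+` is `o, p, z`. -/
def StCB : Prop := StHS → StDIV → ∀ (I : Type) [Fintype I] [DecidableEq I] (X : BD I),
  X.B X.o X.o = 0 → X.Good

/-- **YF MODULE RUL.**  Relations between roots of unity of `2`-power order.
PROOF.  `h = 2^(a-1) ≥ 2`.  Let `ζ = exp (2 π i / 2^a)`, a primitive root of order `2 h` (`Complex.isPrimitiveRoot_exp`); `ζ ^ h = -1`.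
Every `t i` is `ζ ^ (k i)` with `k i < 2 h` (`IsPrimitiveRoot.eq_pow_of_pow_eq_one`).  For `j < 2 h` let
`C j = ∑ i, if t i = ζ ^ j then c i else 0`.  The polynomial `f = ∑_{j < h} (C j - C (j + h)) X ^ j - v` (integer, degree `< h`)
vanishes at `ζ`, since `ζ^(j+h) = -ζ^j` and `∑ i, c i * t i = ∑_{j < 2h} C j ζ^j`.  The minimal polynomial of `ζ` over `ℤ` is the cyclotomic
polynomial of degree `φ(2^a) = h` (`Polynomial.cyclotomic_eq_minpoly`, `Nat.totient_prime_pow`), so `f = 0`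
(`minpoly.dvd`/degree).  So `C 0 - C h = v` and `C j = C (j + h)` for `0 < j < h`.  `ζ ^ 0 = 1`, `ζ ^ h = -1`; for `x ≠ 1, -1`: if
`x ^ (2^a) ≠ 1` both sides are `0`; if `x = ζ^j`, `0 < j < h`, this is the claim, if `x = ζ^(j+h) = -ζ^j` too. -/
def StRUL : Prop := ∀ (a : ℕ) (I : Type) [Fintype I] (t : I → ℂ) (c : I → ℤ) (v : ℤ), 2 ≤ a →
  (∀ i, t i ^ (2 ^ a) = 1) → ∑ i, (c i : ℂ) * t i = v → by
    classical
    exact (∑ i, (if t i = 1 then c i else 0)) - (∑ i, (if t i = -1 then c i else 0)) = v ∧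
      ∀ x : ℂ, x ≠ 1 → x ≠ -1 →
        ∑ i, (if t i = x then c i else 0) = ∑ i, (if t i = -x then c i else 0)

/-- The remaining situation in the case `P ≥ 4` (module PF). -/
def Rem {I : Type} [Fintype I] [DecidableEq I] (Z : CentreRep I) (b : ZMod Z.L) (y : I → ℤ) : Prop :=
  ∃ p q k : I, y Z.o = 0 ∧ p ≠ q ∧ (y p = 1 ∨ y p = -1) ∧ (y q = 1 ∨ y q = -1) ∧
    Z.tw b p = 1 ∧ Z.tw b q = -1 ∧ Z.tw b k ^ 2 ≠ 1 ∧
    ∀ i, y i ≠ 0 → i = p ∨ i = q ∨ Z.tw b i ^ 2 ≠ 1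

/-- **YF MODULE PF.**  The case `P = 2^a ≥ 4`, first part.
PROOF.  `P b = 0` and FUS (2) give `tw b i ^ (2^a) = 1` (`tw b i ^ k = tw (k b) i`).
(1) `∑ k, tw b k * y k ^ 2 = 2 y o`: `rho (s2 b)ᴴ * rho (Lo b) = rho ((s2 b)⁻¹ * Lo b)`; entry `(o, o)`:
`∑ k, conj (u k) * rho (Lo b) k o = rho ((s2 b)⁻¹ * Lo b) o o`, `u k = y k / 2` real, `rho (Lo b) k o = tw b k * y k / 2`.
`(s2 b)⁻¹ * Lo b` has matrix `(1, b; -b, 1 - b)` (`b * b = b`), its first column is that of `Lo (-b)`, so by FUS (6) (with `c = 1`) the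
right side is `rho (Lo (-b)) o o = conj (rho (Lo b) o o)` (`Lo (-b) = (Lo b)⁻¹`, `rho g⁻¹ = (rho g)ᴴ`) `= conj (tw b o * y o / 2) = y o / 2`.
(2) some `k` with `y k ≠ 0` has `tw b k ^ h = -1`, `h = 2^(a-1)`: otherwise `tw (h b) k = tw b k ^ h = 1` whenever `y k ≠ 0`
(`(tw b k ^ h)^2 = 1`), so `rho (U (h b)) * u = u`, i.e. `rho (U (h b) * s2 b) i o = rho (s2 b) i o` for all `i`, hence
`rho ((s2 b)⁻¹ * U (h b) * s2 b) i o = if i = o then 1 else 0`; and `(s2 b)⁻¹ * U (h b) * s2 b = Lo (-(h b))` (2x2 computation,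
`b * b = b`).  By FUS (3) for `z = -(h b)` and for `z = 0`, `rho (Lo (-(h b))) = 1`, so `rho (U (h b)) = 1` (`Lo z * Sm = Sm * U (-z)`), so
`th i ^ (h b).val = 1`, `L ∣ (h b).val < L`, `h b = 0` in `ZMod L`.  Then `h = h (1 - b)`, `L' h = h L' (1 - b) = 0` in `ZMod L`,
`L = 2 h L' ∣ h L'`: contradiction (`h L' > 0`).
(3) By `sq` either `y = ± 2` at one index `k` and `0` elsewhere, or `y = ± 1` at exactly four indices.  First case: by (2) `tw b k ≠ 1`, so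
`k ≠ o`, `y o = 0`, and (1) gives `4 tw b k = 0`, contradiction.
(4) So the support of `y` is a set `T` of four elements.  Let `k1 ∈ T`, `ξ = tw b k1`, `ξ^h = -1`; `h ≥ 2` is even so `ξ ≠ 1, -1`, and
`ξ^2 ≠ 1`.  RUL for (1) (`c = y^2`, `v = 2 y o`): the numbers of `k ∈ T` with `tw b k = x` and with `tw b k = -x` are equal for
`x ≠ ± 1`, and (number with `1`) - (number with `-1`) `= 2 y o`.  RUL for `dim` (`c = y d`, `v = 2`):
(sum of `y k d k` over `tw b k = 1`) - (same over `-1`) `= 2`; so some `k ∈ T` has `tw b k = ± 1`.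
There is `k2 ∈ T` with `tw b k2 = -ξ`, `k2 ≠ k1`.  Let `T = {k1, k2, p, q}`.  One of `p`, `q` has `tw b = ± 1`, say `p`; if `x = tw b q ≠ ± 1`
then the number with `x` equals the number with `-x`: if `x = ± ξ` we have two against one, otherwise one against zero:
contradiction.  So `tw b p = ± 1`, `tw b q = ± 1`, and `tw b p + tw b q = 2 y o`.
(5) If `y o ≠ 0` then `o ∈ T`, `tw b o = 1`, so `o ∈ {p, q}`, say `q = o`; `y o = ± 1` and `1 + tw b p = 2 y o`, so `y o = 1`, `tw b p = 1`;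
`dim` by RUL: `1 + y p d p = 2`, so `d p = 1`.  `th p = tw 1 p = tw b p * tw (1-b) p`, and `tw (1-b) p = tw (1-b) o = 1` by `YP.odd`
(`rho (Lo b) p o = tw b p * y p / 2 ≠ 0`).  `st p`: `y (st p) = y p ≠ 0`, `tw b (st p) = tw b p = 1`, `st p ≠ o` (`st` is an involution
fixing `o`, `p ≠ o`), and `p` is the only element of `T` other than `o` with `tw b = 1`.  So `Goal`.
(6) If `y o = 0`: `tw b p + tw b q = 0`: `{tw b p, tw b q} = {1, -1}`; swap; `k = k1`; and `tw b i ^ 2 = ξ^2 ≠ 1` for `i = k1, k2`: `Rem`. -/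
def StPF : Prop := StFUS → StDUA → StRUL → ∀ (I : Type) [Fintype I] [DecidableEq I]
  (Z : CentreRep I) (a : ℕ) (b : ZMod Z.L) (y : I → ℤ), 2 ≤ a → Idem Z.L (2 ^ a) b → YP Z b y →
  Goal Z ∨ Rem Z b y

/-- `j : Z/P → Z/L`, `x ↦ x b`. -/
structure JH (L P : ℕ) (b : ZMod L) (j : ZMod P → ZMod L) : Prop where
  one : j 1 = b
  zero : j 0 = 0
  add : ∀ x y, j (x + y) = j x + j y
  mul : ∀ x y, j (x * y) = j x * j y
  val : ∀ x, j x = (x.val : ZMod L) * b

/-- **YF MODULE JH.**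
PROOF.  `P = 2^a > 0` so `NeZero P`.  `j x = (x.val : ZMod L) * b`.  Since `(P : ZMod L) * b = 0`, `(k : ZMod L) * b` depends only on
`k` modulo `P`: `(k : ZMod L) * b = ((k % P : ℕ) : ZMod L) * b` (`Nat.div_add_mod`).  `ZMod.val_add`, `ZMod.val_mul`, and `b * b = b` give
`add`, `mul`; `j 1 = ((1 % P : ℕ) : ZMod L) * b = 1 * b = b`. -/
def StJH : Prop := ∀ (L P : ℕ) (b : ZMod L), Idem L P b → ∃ j, JH L P b j

/-- **YF MODULE ORB.**  Points of the projective line.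
PROOF.  `b * j x = j 1 * j x = j x`.  The matrix of `s2 b` is `(1-b, -b; b, 1-b)`.  First columns:
`s2 b : (1 - b, b)`; `U (j c) * s2 b : (1 - b + j c, b)`; `Lo b * U (j c) * s2 b : (1 - b + j c, j c + b) = (1 - b + j c, j (1 + c))`
(`b * (1 - b + j c) + b = j c + b`).
(1) `w = 1 + c`: the unit `C = (1 - b) + j w` of `ZMod L` (inverse `(1 - b) + j w⁻¹`): `C * (1 - b + j (c w⁻¹)) = 1 - b + j c`,
`C * b = j w = j (1 + c)`: so the column of `Lo b * U (j c) * s2 b` is `C` times that of `U (j (c w⁻¹)) * s2 b`: FUS (6).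
(2) `w = c`: `C = (1 - b) + j w`: `C * 1 = 1 - b + j c`, `C * j (1 + w⁻¹) = j (w + 1) = j (1 + c)`; the column of `Lo (j (1 + w⁻¹))` is
`(1, j (1 + w⁻¹))`.
(3) `w = 1 + c`: the column of `U b * Lo (j c)` is `(1 + b j c, j c) = (1 + j c, j c)`; with `C = (1 - b) + j w`: `C * 1 = 1 - b + b + j c = 1 + j c`,
`C * j (c w⁻¹) = j c`; the column of `Lo (j (c w⁻¹))` is `(1, j (c w⁻¹))`. -/
def StORB : Prop := StFUS → StDUA → ∀ (I : Type) [Fintype I] [DecidableEq I] (Z : CentreRep I) (P : ℕ)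
  (b : ZMod Z.L) (j : ZMod P → ZMod Z.L), b * b = b → JH Z.L P b j →
  ∀ (c : ZMod P) (w : (ZMod P)ˣ),
    ((w : ZMod P) = 1 + c → ∀ i, Z.rho (Lo b * U (j c) * s2 b) i Z.o =
      Z.rho (U (j (c * ((w⁻¹ : (ZMod P)ˣ) : ZMod P))) * s2 b) i Z.o) ∧
    ((w : ZMod P) = c → ∀ i, Z.rho (Lo b * U (j c) * s2 b) i Z.o =
      Z.rho (Lo (j (1 + ((w⁻¹ : (ZMod P)ˣ) : ZMod P)))) i Z.o) ∧
    ((w : ZMod P) = 1 + c → ∀ i, Z.rho (U b * Lo (j c)) i Z.o =
      Z.rho (Lo (j (c * ((w⁻¹ : (ZMod P)ˣ) : ZMod P)))) i Z.o)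

/-- **YF MODULE EV.**  Sums over the odd and even residues modulo `2^a`.
PROOF.  `x : ZMod (2^a)` is a unit iff `x.val` is odd (`ZMod.isUnit_iff_coprime`, `Nat.Coprime` with a power of two, `a ≥ 1`), so
exactly one of `x`, `1 + x` is a unit.  (1) `x ↦ x (1 + x)⁻¹` maps the nonunits to the nonunits, with inverse
`e ↦ e (1 - e)⁻¹`; (2) `x ↦ 1 + x⁻¹` maps the units to the nonunits with inverse `e ↦ (e - 1)⁻¹`.  Use `Finset.sum_bij'` (or
`Finset.sum_nbij'`); `Ring.inverse` is the inverse on units.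
(3) The nonunits are `2 k`, `k < h = 2^(a-1)`: `∑ = ∑_{k<h} θ^(2k)`, which is `h` if `θ^2 = 1` and `0` otherwise (`θ^(2h) = 1`, geometric
sum).  The units are the `1 + 2 k`: the factor `θ`. -/
def StEV : Prop := ∀ a : ℕ, 1 ≤ a → by
  classical
  exact (∀ x : ZMod (2 ^ a), IsUnit (1 + x) ↔ ¬ IsUnit x) ∧
  (∀ f : ZMod (2 ^ a) → ℂ, (∑ x, if IsUnit x then 0 else f (x * Ring.inverse (1 + x))) =
    ∑ x, if IsUnit x then 0 else f x) ∧
  (∀ f : ZMod (2 ^ a) → ℂ, (∑ x, if IsUnit x then f (1 + Ring.inverse x) else 0) =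
    ∑ x, if IsUnit x then 0 else f x) ∧
  (∀ θ : ℂ, θ ^ (2 ^ a) = 1 →
    (∑ x : ZMod (2 ^ a), if IsUnit x then 0 else θ ^ x.val) = (if θ ^ 2 = 1 then 2 ^ (a - 1) else 0) ∧
    (∑ x : ZMod (2 ^ a), if IsUnit x then θ ^ x.val else 0) =
      (if θ ^ 2 = 1 then θ * 2 ^ (a - 1) else 0))

/-- **YF MODULE PX.**  The case `P = 2^a ≥ 4`, second part.
PROOF.  `j` from JH, `h = 2^(a-1)`, `u = y / 2`, `u i = rho (s2 b) i o`; all sums over `x : ZMod P`; `tw (j x) i = tw b i ^ x.val`.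
Let `F i = h⁻¹ * ∑_{x nonunit} rho (Lo (j x)) i o`.
(1) `∑_{x nonunit} rho (Lo b * U (j x) * s2 b) i o = ∑ k, α i k * (∑_{x nonunit} tw (j x) k) * u k = h (α i p u p + α i q u q)`
(`α = rho (Lo b)`; EV (3); `u k = 0` unless `k = p, q` or `tw b k ^ 2 ≠ 1`).  By ORB (1) and EV (1) the left side is
`∑_{x nonunit} rho (U (j x) * s2 b) i o = (∑_{x nonunit} tw (j x) i) u i = h (δ_{ip} u p + δ_{iq} u q)`.  So
`α i p u p + α i q u q = δ_{ip} u p + δ_{iq} u q`.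
(2) `∑_{x unit} rho (Lo b * U (j x) * s2 b) i o = h (α i p u p - α i q u q)` (`tw b p = 1`, `tw b q = -1`), and by ORB (2), EV (2) it is
`∑_{x nonunit} rho (Lo (j x)) i o = h F i`.  So `α i p u p - α i q u q = F i`.
(3) Adding: `2 α i p u p = δ_{ip} u p + δ_{iq} u q + F i`; multiply by `2 y p` (`y p ^ 2 = 1`):
`2 α i p = δ_{ip} + y p y q δ_{iq} + 2 y p F i`.  `2 α i p = ∑ l, N i (st p) l * (tw b l * y l)` (FUS (3), `YP.al`) is integral over `ℤ`, so
`G i := 2 F i` is integral.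
(4) `σ (F i) = F i` for every automorphism `σ`: `c` from `galois σ`; for `g = Lo (j x)`, `g' = Lo (c⁻¹ * j x)`:
`rho g' i o = σ (rho g i o)`.  Multiplication by `c⁻¹` on `b ZMod L = j (ZMod P)`: let `c' ∈ ZMod P` be the image of `c⁻¹`
(`ZMod.castHom (P ∣ L)`), then `c⁻¹ * j x = j (c' x)` (both are `(c⁻¹).val * x.val * b`), `c'` is a unit, and `x ↦ c' x` permutes the nonunits.
So by RAT `G i` is an integer.
(5) `rho (Lo z) i o = ∑ k, s i k * tw (-z) k * s o k` (`s = rho Sm`; see FUS (3), `s o k` real).  With `z = j x` and EV (3)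
(`θ = tw (-b) k = conj (tw b k)`, `tw (-(j x)) k = θ ^ x.val`; `θ^2 = 1 ↔ tw b k ^ 2 = 1`): `F i = ∑_{k : tw b k ^ 2 = 1} s i k * s o k`.
So with the projection `Π` on the `k` with `tw b k ^ 2 = 1` and `v k = s o k = d k / n > 0`: `F = s Π v`, `v = s e_o`.
`∑ i, conj (F i) * F i = ∑ k, [tw b k ^ 2 = 1] v k ^ 2 = F o` (`s` unitary), and `∑ i, F i * d i = n ∑ i, conj (s i o) F i =
n ∑ k, (sᴴ s) o k [tw b k ^ 2 = 1] v k = n v o = 1`.
(6) `F o ≥ v o ^ 2 > 0` (`tw b o = 1`), and `F o < ∑ k, v k ^ 2 = 1` as the index `k` of `Rem` is missing, `v k > 0`.  So the integer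
`G o` is in `(0, 2)`: `G o = 1`, `∑ i, G i ^ 2 = 4 F o = 2 G o = 2`: `G = e_o ± e_x` with one `x ≠ o`; `∑ i, G i * d i = 2`:
`1 ± d x = 2`: sign `+`, `d x = 1`.
(7) `tw b x = 1`: `tw b i * F i = h⁻¹ ∑_{nonunit c} rho (U b * Lo (j c)) i o = F i` by ORB (3), EV (1); `F x ≠ 0`.
`tw (1-b) x = 1`: `U (1-b) * Lo (j c) = Lo (j c) * U (1-b)` (`b * j c = j c`), so `tw (1-b) i * rho (Lo (j c)) i o = rho (Lo (j c)) i o`, so
`tw (1-b) i * F i = F i`.  So `th x = tw 1 x = 1`.  `st x = x`: `F (st i) = F i` (DUA), `st x ≠ o` (DUA) so `st x = x`. -/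
def StPX : Prop := StFUS → StDUA → StRAT → StJH → StORB → StEV → ∀ (I : Type) [Fintype I]
  [DecidableEq I] (Z : CentreRep I) (a : ℕ) (b : ZMod Z.L) (y : I → ℤ), 2 ≤ a →
  Idem Z.L (2 ^ a) b → YP Z b y → Rem Z b y → Goal Z

end Pool.Agent.Helper94.YF
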